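import Pool.Agent.NTS.StmtsE
import Pool.Agent.Helper60_PFS.Simp

/-!
# Squad NTS (MP_e54c4c_gt), row HSL (helper44): half space lemma
-/

set_option autoImplicit false

open Matrix Filter Topology

namespace Pool.Agent.NTS.H44

open Pool.Agent.PFS Pool.Agent.PFJ Pool.Agent.NTS

theorem sum_two {K : ℕ} (ν : Fin K → ℝ) (j k : Fin K) (hjk : j ≠ k)
    (h : ∀ i, i ≠ j → i ≠ k → ν i = 0) : ∑ i, ν i = ν j + ν k := by
  classical
  rw [← Finset.add_sum_erase _ _ (Finset.mem_univ j),
    ← Finset.add_sum_erase _ _ (Finset.mem_erase.mpr ⟨hjk.symm, Finset.mem_univ k⟩)]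
  rw [Finset.sum_eq_zero]
  · ring
  · intro i hi
    rw [Finset.mem_erase, Finset.mem_erase] at hi
    exact h i hi.2.1 hi.1

theorem hsl (exv : ExvStmt) (vtx : VtxStmt) (nbd : NbdStmt) (two : TwoStmt)
    (edc : EdcStmt) : HslStmt := by
  classical
  intro n C Γ hCC K hK hMax w w' ν M L hw hw' hν hsum hSame hnear
  have hP : PCone C := hCC.toPCone
  have hcl : ∀ i, w i ∈ closure C := fun i => hw.1.cl i
  have hcl' : ∀ i, w' i ∈ closure C := fun i => hw'.1.cl i
  have hne : ∀ i, w i ≠ 0 := fun i => (H60.lin n C hP (Fin K) w hw.1).ne_zero i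
  have hne' : ∀ i, w' i ≠ 0 := fun i => (H60.lin n C hP (Fin K) w' hw'.1).ne_zero i
  have hext : ∀ i, Ext C (w i) := exv n C Γ hCC K (by omega) hMax w hw
  -- (1)
  have hshare : ∀ i m : Fin K, m ≠ i → ν m < 0 → ∃ c : ℝ, 0 < c ∧ w' i = c • w i := by
    intro i m hmi hm
    obtain ⟨B, hB⟩ : ∃ B : ℕ, -ν i / (-ν m) < B := exists_nat_gt _
    have hB' : 0 < ν i - B * ν m := by
      rw [div_lt_iff₀ (by linarith)] at hB
      linarith
    obtain ⟨u, hu⟩ : ∃ u : ℕ → Fin K → ℤ, ∀ N j, u N j =
        if j = i then ((N : ℤ) + 1) else if j = m then -(((N : ℤ) + 1) * B) else 0 :=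
      ⟨fun N j => if j = i then ((N : ℤ) + 1) else if j = m then -(((N : ℤ) + 1) * B) else 0,
        fun _ _ => rfl⟩
    apply vtx n C hP K w w' i M L u (hcl i) (hne i) (hcl' i) (hext i)
    · intro N
      apply hnear
      have e : ∑ j, ν j * (u N j : ℝ) = ν i * (u N i : ℝ) + ν m * (u N m : ℝ) := by
        apply sum_two (fun j => ν j * (u N j : ℝ)) i m hmi.symm
        intro j hji hjm
        rw [hu, if_neg hji, if_neg hjm]
        simp
      rw [e, hu, hu, if_pos rfl, if_neg hmi, if_pos rfl]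
      push_cast
      have h1 : (0 : ℝ) < (N : ℝ) + 1 := by positivity
      have e2 : ν i * ((N : ℝ) + 1) + ν m * -(((N : ℝ) + 1) * B)
          = ((N : ℝ) + 1) * (ν i - B * ν m) := by ring
      rw [e2]
      exact mul_pos h1 hB'
    · intro j hji A
      filter_upwards [eventually_ge_atTop A.toNat] with N hN
      have hA : A ≤ (N : ℤ) := (Int.self_le_toNat A).trans (by exact_mod_cast hN)
      rw [hu, hu, if_pos rfl, if_neg hji]
      by_cases hjm : j = m
      · rw [if_pos hjm]
        have h1 : (0 : ℤ) ≤ ((N : ℤ) + 1) * B := by positivity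
        linarith
      · rw [if_neg hjm]
        linarith
  -- (2)
  obtain ⟨k, hk⟩ : ∃ k, ν k < 0 := by
    by_contra hcon
    have hnn : ∀ i, 0 ≤ ν i := fun i => not_lt.mp fun h => hcon ⟨i, h⟩
    apply hν
    funext i
    exact (Finset.sum_eq_zero_iff_of_nonneg (fun i _ => hnn i)).mp hsum i (Finset.mem_univ i)
  have hmk : (∀ i, ∃ c : ℝ, 0 < c ∧ w' i = c • w i) → False := by
    intro h
    choose c hc hc' using h
    apply hSame
    refine ⟨1, fun i => (c i)⁻¹, fun i => inv_pos.mpr (hc i), fun i => ?_⟩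
    rw [Equiv.Perm.one_apply, hc' i, smul_smul, inv_mul_cancel₀ (hc i).ne', one_smul]
  have hkuniq : ∀ i, i ≠ k → 0 ≤ ν i := by
    intro k' hk'
    by_contra h
    have hk'' : ν k' < 0 := not_le.mp h
    apply hmk
    intro i
    by_cases hi : i = k
    · exact hshare i k' (by rw [hi]; exact hk') hk''
    · exact hshare i k (fun h => hi h.symm) hk
  have hsh : ∀ i, i ≠ k → ∃ c : ℝ, 0 < c ∧ w' i = c • w i := fun i hi =>
    hshare i k (fun h => hi h.symm) hk
  have hnotmul : ¬ ∃ c : ℝ, w' k = c • w k := by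
    rintro ⟨c, hc⟩
    have hcpos : 0 < c := by
      rcases lt_trichotomy c 0 with h | h | h
      · exfalso
        apply hne' k
        apply hP.salient _ (hcl' k)
        rw [hc, ← neg_smul]
        exact hP.cl_smul (hcl k) (by linarith)
      · exfalso
        apply hne' k
        rw [hc, h, zero_smul]
      · exact h
    apply hmk
    intro i
    by_cases hi : i = k
    · exact ⟨c, hcpos, by rw [hi]; exact hc⟩
    · exact hsh i hi
  -- (3)
  have hML : 0 < M ∧ 0 < L := by
    have hu0 : 0 < ∑ i, ν i * (((if i = k then (-1 : ℤ) else 0 : ℤ)) : ℝ) := by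
      have e : ∀ i, ν i * (((if i = k then (-1 : ℤ) else 0 : ℤ)) : ℝ)
          = if i = k then -ν i else 0 := by
        intro i
        by_cases h : i = k
        · rw [if_pos h, if_pos h]
          push_cast
          ring
        · rw [if_neg h, if_neg h]
          simp
      rw [Finset.sum_congr rfl fun i _ => e i, Finset.sum_ite_eq' Finset.univ k]
      simp only [Finset.mem_univ, if_true]
      linarith
    obtain ⟨c, hc, hc1, hc2, hc3, hc4⟩ := hnear (fun i => if i = k then -1 else 0) hu0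
    constructor
    · by_contra hM
      have hM' : M ≤ 0 := not_lt.mp hM
      have hpt : pt w (fun i => if i = k then (-1 : ℤ) else 0) ∈ C :=
        hw.1.pos _ fun i => by positivity
      have h1 : (∑ i, c i • w' i) ∈ C := hw'.1.pos c hc
      have h2 : -(∑ i, c i • w' i) ∈ closure C := by
        have h3 := hP.cl_add hc4 (hP.cl_smul (subset_closure hpt) (by linarith : 0 ≤ -M))
        have e : M • pt w (fun i => if i = k then (-1 : ℤ) else 0) - ∑ i, c i • w' i
            + -M • pt w (fun i => if i = k then (-1 : ℤ) else 0) = -(∑ i, c i • w' i) := by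
          rw [neg_smul]
          abel
        rw [e] at h3
        exact h3
      exact hP.ne_zero h1 (hP.salient _ (subset_closure h1) h2)
    · by_contra hL
      have h1 := hc1 k
      have h2 : (0 : ℝ) < (2 : ℝ) ^ (if k = k then (-1 : ℤ) else 0) := by positivity
      have h3 : L * c k ≤ 0 := mul_nonpos_of_nonpos_of_nonneg (not_lt.mp hL) (hc k).le
      linarith
  obtain ⟨hM, hL⟩ := hML
  have hbelow : BelowH C w (w' k) k ν := by
    refine ⟨M * L, mul_pos hM hL, ?_⟩
    intro u hu
    obtain ⟨c, hc, hc1, hc2, hc3, hc4⟩ := hnear u hu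
    have e1 : ∑ i, c i • w' i = c k • w' k + ∑ i ∈ Finset.univ.erase k, c i • w' i :=
      (Finset.add_sum_erase _ _ (Finset.mem_univ k)).symm
    have h2 : ∑ i ∈ Finset.univ.erase k, c i • w' i ∈ closure C :=
      hP.cl_sum fun i _ => hP.cl_smul (hcl' i) (hc i).le
    have h3 : (L * c k - (2 : ℝ) ^ (u k)) • w' k ∈ closure C :=
      hP.cl_smul (hcl' k) (by linarith [hc1 k])
    have h4 := hP.cl_add (hP.cl_add (hP.cl_smul hc4 hL.le) (hP.cl_smul h2 hL.le)) h3
    have e : L • (M • pt w u - ∑ i, c i • w' i) + L • ∑ i ∈ Finset.univ.erase k, c i • w' i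
        + (L * c k - (2 : ℝ) ^ (u k)) • w' k = (M * L) • pt w u - (2 : ℝ) ^ (u k) • w' k := by
      rw [e1, smul_sub, smul_add, sub_smul, smul_smul, smul_smul, mul_comm L M]
      abel
    rw [e] at h4
    exact h4
  -- (4)
  obtain ⟨j, hjk, hj⟩ : ∃ j, j ≠ k ∧ 0 < ν j := by
    by_contra hcon
    have hz : ∀ i, i ≠ k → ν i = 0 := by
      intro i hi
      exact le_antisymm (not_lt.mp fun h => hcon ⟨i, hi, h⟩) (hkuniq i hi)
    have e : ∑ i, ν i = ν k := Finset.sum_eq_single k (fun i _ hi => hz i hi)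
      (fun h => absurd (Finset.mem_univ k) h)
    rw [hsum] at e
    linarith
  have hothers : ∀ i, i ≠ j → i ≠ k → ν i = 0 := by
    intro j' hj'j hj'k
    by_contra hne0
    have hj' : 0 < ν j' := lt_of_le_of_ne (hkuniq j' hj'k) (Ne.symm hne0)
    obtain ⟨i0, hi0, hmem⟩ := two n C Γ hCC K (by omega) hMax w (w' k) k hw (hw'.2 k) hnotmul
    by_cases h : j = i0
    · exact nbd n C hP K w (w' k) k ν hw.1 (hcl' k) hbelow hkuniq i0 j' hi0 hj'k
        (by rw [← h]; exact hj'j) hj' hmem
    · exact nbd n C hP K w (w' k) k ν hw.1 (hcl' k) hbelow hkuniq i0 j hi0 hjk h hj hmem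
  have hkj : ν k = -ν j := by
    have e := sum_two ν j k hjk hothers
    rw [hsum] at e
    linarith
  refine ⟨j, k, hjk, hj, hkj, hothers, hsh, hnotmul, ?_⟩
  exact edc n C hP K w (w' k) k j ν hcl hbelow hjk hj hothers

end Pool.Agent.NTS.H44
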